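import Pool.Agent.Helper13.PL.NF2
import Pool.Agent.Helper10.TQ.Defs

/-!
# Project TQ: the relations in the ultrapower
-/

universe u v w

namespace Pool.Agent.TQ

open Pool.Agent.PL Pool.Agent.Helper37.UL

variable {J : Type v} {U : Ultrafilter J} {k C : Type u} [Field k] [Field C] [Algebra k C]
  [IsAlgClosed C] [CharZero C] {S : Type w} [Field S] {π : (J → C) →+* S} (h : UP U π)

include h in
/-- **The relations in the ultrapower.** -/
theorem rels (hC : ∀ x : C, IsAlgebraic (algebraMap k C).fieldRange x)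
    {ι κ : Type} [Finite ι] [Finite κ] {G : J → Fin 4 → ι → C} {W : J → κ → C} {T : k}
    {z : J → Fin 4 → Fin 4 → C}
    (hG : ∀ i q, IsAlgebraic (h.gsub (algebraMap k C).fieldRange) (π fun a => G a i q))
    (hW : ∀ q, IsAlgebraic (h.gsub (algebraMap k C).fieldRange) (π fun a => W a q))
    (hz : ∀ᶠ a in (U : Filter J), LevZQ (G a) (W a) T (z a)) :
    (∀ i j, i ≠ j → (π fun a => z a i j) ≠ 0) ∧
    (∀ i j, i ≠ j → ∀ σ : S ≃+* S, Fx k h 2 σ →
      (∀ q, σ (π fun a => G a i q) = π fun a => G a i q) →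
      (∀ q, σ (π fun a => G a j q) = π fun a => G a j q) →
      σ ((π fun a => z a i j) ^ 2) = (π fun a => z a i j) ^ 2) ∧
    (∀ i j l, i ≠ j → j ≠ l → i ≠ l → ∀ σ : S ≃+* S, Fx k h 2 σ →
      (∀ q, σ (π fun a => G a i q) = π fun a => G a i q) →
      (∀ q, σ (π fun a => G a j q) = π fun a => G a j q) →
      (∀ q, σ (π fun a => G a l q) = π fun a => G a l q) →
      σ ((π fun a => z a i j) * (π fun a => z a j l) / (π fun a => z a i l)) =
        (π fun a => z a i j) * (π fun a => z a j l) / (π fun a => z a i l)) ∧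
    (∀ α : C, α ^ 2 = algebraMap k C T → ∀ σ : S ≃+* S, Fx k h 2 σ →
      (∀ i q, σ (π fun a => G a i q) = π fun a => G a i q) →
      (∀ q, σ (π fun a => W a q) = π fun a => W a q) →
      σ (UP.cst π α / π fun a => z a 1 0) = UP.cst π α / π fun a => z a 1 0) ∧
    (∀ T' : S ≃+* S, UP.Internal π (algebraMap k C).fieldRange T' →
      ∀ i j i' j', i ≠ j → i' ≠ j' →
      (∀ q, T' (π fun a => G a i q) = π fun a => G a i' q) →
      (∀ q, T' (π fun a => G a j q) = π fun a => G a j' q) →
      ∀ σ : S ≃+* S, Fx k h 2 σ →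
      (∀ q, σ (π fun a => G a i' q) = π fun a => G a i' q) →
      (∀ q, σ (π fun a => G a j' q) = π fun a => G a j' q) →
      σ (T' (π fun a => z a i j) / (π fun a => z a i' j')) =
        T' (π fun a => z a i j) / (π fun a => z a i' j')) := by
  classical
  refine ⟨?_, ?_, ?_, ?_, ?_⟩
  · intro i j hij
    rw [h.ne0]
    filter_upwards [hz] with a ha
    exact ha.ne i j hij
  · intro i j hij σ hσ hσi hσj
    rw [← map_pow]
    refine fix_of_ev h two_ne_zero hC (I := ι ⊕ ι) (v := fun a => Sum.elim (G a i) (G a j))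
      (y := (fun a => z a i j) ^ 2) ?_ ?_ hσ ?_
    · rintro (q | q)
      · exact hG i q
      · exact hG j q
    · filter_upwards [hz] with a ha
      rw [Set.Sum.elim_range]
      exact ha.pow i j hij
    · rintro (q | q)
      · exact hσi q
      · exact hσj q
  · intro i j l hij hjl hil σ hσ hσi hσj hσl
    rw [← map_mul, ← h.map_div]
    refine fix_of_ev h two_ne_zero hC (I := (ι ⊕ ι) ⊕ ι)
      (v := fun a => Sum.elim (Sum.elim (G a i) (G a j)) (G a l)) ?_ ?_ hσ ?_
    · rintro ((q | q) | q)
      · exact hG i q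
      · exact hG j q
      · exact hG l q
    · filter_upwards [hz] with a ha
      rw [Set.Sum.elim_range, Set.Sum.elim_range]
      exact ha.coc i j l hij hjl hil
    · rintro ((q | q) | q)
      · exact hσi q
      · exact hσj q
      · exact hσl q
  · intro α hα σ hσ hσG hσW
    have h1 : UP.cst π α / (π fun a => z a 1 0) = π ((fun _ => α) / fun a => z a 1 0) := by
      rw [h.map_div]
      rfl
    rw [h1]
    refine fix_of_ev h two_ne_zero hC (I := (Fin 4 × ι) ⊕ κ)
      (v := fun a => Sum.elim (fun q => G a q.1 q.2) (W a)) ?_ ?_ hσ ?_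
    · rintro (q | q)
      · exact hG q.1 q.2
      · exact hW q
    · filter_upwards [hz] with a ha
      have h2 : Set.range (Sum.elim (fun q : Fin 4 × ι => G a q.1 q.2) (W a)) =
          (⋃ j, Set.range (G a j)) ∪ Set.range (W a) := by
        rw [Set.Sum.elim_range]
        congr 1
        ext x
        constructor
        · rintro ⟨q, rfl⟩
          exact Set.mem_iUnion.2 ⟨q.1, q.2, rfl⟩
        · intro hx
          obtain ⟨j, q, rfl⟩ := Set.mem_iUnion.1 hx
          exact ⟨(j, q), rfl⟩
      rw [h2]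
      exact ha.prod α hα
    · rintro (q | q)
      · exact hσG q.1 q.2
      · exact hσW q
  · intro T' hT' i j i' j' hij hij' hi hj σ hσ hσi hσj
    obtain ⟨τ, hτ, hTτ⟩ := hT'
    rw [hTτ, ← h.map_div]
    have hi' : ∀ᶠ a in (U : Filter J), ∀ q, τ a (G a i q) = G a i' q := by
      rw [Filter.eventually_all]
      intro q
      have h1 := hi q
      rw [hTτ] at h1
      exact (h.eq_iff _ _).1 h1
    have hj' : ∀ᶠ a in (U : Filter J), ∀ q, τ a (G a j q) = G a j' q := by
      rw [Filter.eventually_all]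
      intro q
      have h1 := hj q
      rw [hTτ] at h1
      exact (h.eq_iff _ _).1 h1
    refine fix_of_ev h two_ne_zero hC (I := ι ⊕ ι) (v := fun a => Sum.elim (G a i') (G a j'))
      ?_ ?_ hσ ?_
    · rintro (q | q)
      · exact hG i' q
      · exact hG j' q
    · filter_upwards [hz, hi', hj'] with a ha h1 h2
      rw [Set.Sum.elim_range]
      let σ' : C ≃ₐ[k] C := AlgEquiv.ofRingEquiv (f := τ a) (fun c => hτ a _ ⟨c, rfl⟩)
      exact ha.equi σ' i j i' j' hij hij' h1 h2
    · rintro (q | q)
      · exact hσi q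
      · exact hσj q

end Pool.Agent.TQ
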