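import Pool.Agent.Helper10.TQ.Defs
import Pool.Agent.Helper37.BT.Basic

/-!
# Project TQ: base change of certificates
-/

universe u v

namespace Pool.Agent.TQ

open MvPolynomial Pool.Agent.BT

/-- base change of certificates -/
theorem CertV.map {K : Type u} {L : Type v} [Field K] [Field L] (ι : K →+* L) {N t : ℕ}
    {ht : t ≤ N} {U : Type} [Fintype U] {e : U → ℕ} {h : ∀ u, MonV (N + 2) (e u) → K} {c : ℕ}
    (hcert : CertV ht h c) : CertV ht (fun u q => ι (h u q)) c := by
  intro q
  obtain ⟨A, B, b, hb, hid⟩ := hcert q
  refine ⟨fun a => ι (A a), fun s a => ι (B s a), fun u => MvPolynomial.map ι (b u), ?_, ?_⟩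
  · intro u hu
    have h1 : b u ≠ 0 := by
      intro h0
      apply hu
      change MvPolynomial.map ι (b u) = 0
      rw [h0, map_zero]
    refine (Nat.add_le_add_right ?_ _).trans (hb u h1)
    change (MvPolynomial.map ι (b u)).totalDegree ≤ _
    exact Finset.sup_mono (support_map_subset ι (b u))
  · have h1 := congrArg (MvPolynomial.map ι) hid
    rw [map_add, map_add, map_sum, map_sum, map_monomial, map_one, BT.map_pol] at h1
    simp only [map_mul, BT.map_pol, map_X] at h1
    exact h1

end Pool.Agent.TQ
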