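import Mathlib

/-!
# Project TQ: the final contradiction
-/

universe u

namespace Pool.Agent.BT

/-- **The final contradiction for two quadrics**: `a = z 1 0`, `b = z 0 2 = e g`, `c = z 1 2`; `τ` moves `α`, `τ'`
agrees with `τ` on the algebraic elements and fixes everything of level zero, `ρ` is the transposition which commutes
with `τ`, and `T` is an internal automorphism which agrees with `ρ` on the algebraic elements. -/
theorem no_z2 {S : Type u} [Field S] {p : ℕ} {a b c e g α : S} (ha : a ≠ 0) (hb : b ≠ 0)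
    (hc : c ≠ 0) (hbeg : b = e * g) (τ τ' ρ T : S ≃+* S) (hτα : τ α ≠ α) (hα : τ' α = τ α)
    (hτe : τ' e = τ e) (hτρe : τ' (ρ e) = τ (ρ e)) (hcomm : τ (ρ e) = ρ (τ e))
    (hρμ : ∀ ξ : S, ξ ^ p = 1 → ρ ξ = ξ) (hTe : T e = ρ e) (fpow : τ' (b ^ p) = b ^ p)
    (fcoc : τ' (a * b / c) = a * b / c) (fprod : τ' (α / a) = α / a) (fg : τ' g = g)
    (fTg : τ' (T g) = T g) (fTz : τ' (T b / c) = T b / c) : False := by
  have he0 : e ≠ 0 ∧ g ≠ 0 := by
    rw [hbeg] at hb
    exact ⟨left_ne_zero_of_mul hb, right_ne_zero_of_mul hb⟩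
  set cb := τ' b / b with hcb
  set cc := τ' c / c with hcc
  set ca := τ' a / a with hca
  have h1 : τ' b = cb * b := (div_mul_cancel₀ _ hb).symm
  have h2 : τ' c = cc * c := (div_mul_cancel₀ _ hc).symm
  have h3 : τ' a = ca * a := (div_mul_cancel₀ _ ha).symm
  have hcb1 : cb ^ p = 1 := by
    rw [hcb, div_pow, ← map_pow, fpow]
    exact div_self (pow_ne_zero _ hb)
  have hcb0 : cb ≠ 0 := div_ne_zero (fun h => hb ((map_eq_zero τ').1 h)) hb
  have hcc0 : cc ≠ 0 := div_ne_zero (fun h => hc ((map_eq_zero τ').1 h)) hc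
  have hce : τ e = cb * e := by
    rw [hbeg, map_mul, hτe, fg, ← mul_assoc] at h1
    exact mul_right_cancel₀ he0.2 h1
  have h4 : τ' (T b) = cb * T b := by
    rw [hbeg, map_mul, map_mul, hTe, hτρe, hcomm, hce, map_mul, hρμ _ hcb1, fTg]
    ring
  have h5 : τ' (T b) = cc * T b := by
    have h6 : T b = T b / c * c := (div_mul_cancel₀ _ hc).symm
    rw [h6, map_mul, fTz, h2]
    ring
  have hTb : T b ≠ 0 := fun h => hb ((map_eq_zero T).1 h)
  have hbc : cb = cc := mul_right_cancel₀ hTb (h4.symm.trans h5)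
  have hca1 : ca = 1 := by
    rw [map_div₀, map_mul, h1, h2, h3, hbc] at fcoc
    field_simp at fcoc
    exact fcoc
  apply hτα
  rw [map_div₀, h3, hca1, one_mul, hα] at fprod
  exact (div_left_inj' ha).1 fprod

end Pool.Agent.BT
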