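import Pool.Agent.Helper13.TQ.N6
import Pool.Agent.Helper13.BT.N7
import Pool.Agent.Helper10.TQ.LevQ

/-!
# Project TQ: the curves with a section form a thin set
-/

universe u

namespace Pool.Agent.TQ

open Pool.Agent.Helper37.UL UL Pool.Agent.PL Pool.Agent.BT

/-- the key statement -/
theorem key_of_cert {k : Type u} [Field k] {N t : ℕ} (ht : t ≤ N) {ds : Fin t → ℕ} {s₀ : Fin t}
    (hs₀ : ds s₀ = 2) {U : Type} [Fintype U] {e : U → ℕ} {hh : ∀ u, MonV (N + 2) (e u) → k}
    {c : ℕ} (hc : 1 ≤ c) (hcert : CertV ht hh c) :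
    Key k fun a : IxV (N + 2) 2 ds → k => HasSecV 2 (mainS a) (relS (othS a) hh) := by
  intro F _ _ _ hF T q hT hq htop hfd κ hκ hs m w hw0 hw1
  by_contra hcon
  let J : Type u := {a : IxV (N + 2) 2 ds × Fin (m + 2) → F //
    HasSecV 2 (mainS (sysW w a)) (relS (othS (sysW w a)) hh)}
  refine no_family (J := J) (F := F) (k := k) (C := AlgebraicClosure k) hT hq htop hκ hs
    hw0 hw1 ht hs₀ hc hcert (vv := Subtype.val) ?_ fun a =>
      hasLevQ_of_hasSecV hF T hfd a.2 (AlgebraicClosure k)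
  rw [Subtype.range_coe_subtype]
  exact hcon

/-- **Linear systems of complete intersection curves with two quadrics: the curves with a Galois section over an
extension of odd degree form a thin set.** -/
theorem thin_curvesQ {F k : Type u} [Field F] [CharZero F] [Field k] [Algebra F k]
    (hF : ∃ S : Finset F, Subfield.closure (S : Set F) = ⊤)
    (hk : ∃ S : Finset k, Subfield.closure (S : Set k) = ⊤)
    {m : ℕ} {w : Fin (m + 1) → k} {i j : Fin (m + 1)}
    (hT : Transcendental F (w i / w j)) {N t : ℕ} (ht : t ≤ N) {ds : Fin t → ℕ} {s₀ : Fin t}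
    (hs₀ : ds s₀ = 2) {U : Type} [Fintype U] {e : U → ℕ} {hh : ∀ u, MonV (N + 2) (e u) → k}
    (hcert : ∃ c, 1 ≤ c ∧ CertV ht hh c) :
    IsThin {a : IxV (N + 2) 2 ds × Fin (m + 1) → F |
      HasSecV 2 (mainS (sysW w a)) (relS (othS (sysW w a)) hh)} := by
  obtain ⟨c, hc, hcert⟩ := hcert
  exact thin_of_key (P := fun a : IxV (N + 2) 2 ds → k => HasSecV 2 (mainS a) (relS (othS a) hh))
    (fun c a _ h => hasSecV_smul c a h) (key_of_cert ht hs₀ hc hcert) hF hk hT

end Pool.Agent.TQ
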